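import Pool.Agent.V5helper32.CM.Stm3

/-!
# CM/RD: the data `Rd` of a reflection group with an automorphism (helper61)
-/

namespace Pool.Agent.V5helper61.CM

open Pool.Agent.V5helper32.CM

section

variable {V : Type} [AddCommGroup V] [Module ℂ V] {n : ℕ} (b : Module.Basis (Fin n) ℂ V)

lemma matB_val (g : V ≃ₗ[ℂ] V) : (matB b g).val = LinearMap.toMatrix b b (g : V →ₗ[ℂ] V) := rfl

lemma matB_sub_one (g : V ≃ₗ[ℂ] V) :
    (matB b g).val - 1 = LinearMap.toMatrix b b ((g : V →ₗ[ℂ] V) - LinearMap.id) := by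
  rw [matB_val, map_sub, LinearMap.toMatrix_id]

lemma rank_matB (g : V ≃ₗ[ℂ] V) :
    ((matB b g).val - 1).rank = Module.finrank ℂ (LinearMap.range ((g : V →ₗ[ℂ] V) - LinearMap.id)) := by
  rw [Matrix.rank_eq_finrank_range_toLin _ b b, matB_sub_one, Matrix.toLin_toMatrix]

lemma ker_matB (g : V ≃ₗ[ℂ] V) :
    Module.finrank ℂ (LinearMap.ker (Matrix.toLin' ((matB b g).val - 1))) =
      Module.finrank ℂ (LinearMap.ker ((g : V →ₗ[ℂ] V) - LinearMap.id)) := by
  have : FiniteDimensional ℂ V := b.finiteDimensional_of_finite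
  have h1 := LinearMap.finrank_range_add_finrank_ker (Matrix.toLin' ((matB b g).val - 1))
  have h2 := LinearMap.finrank_range_add_finrank_ker ((g : V →ₗ[ℂ] V) - LinearMap.id)
  have h3 : Module.finrank ℂ (LinearMap.range (Matrix.toLin' ((matB b g).val - 1))) =
      ((matB b g).val - 1).rank := rfl
  rw [rank_matB b g] at h3
  rw [Module.finrank_fin_fun] at h1
  rw [Module.finrank_eq_card_basis b, Fintype.card_fin] at h2
  omega

lemma matB_mulVec (g : V ≃ₗ[ℂ] V) (v : V) : (matB b g).val.mulVec (b.repr v) = b.repr (g v) := by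
  rw [matB_val, LinearMap.toMatrix_mulVec_repr]
  rfl

end

theorem t_RD : S_RD := by
  intro V _ _ n b W _ hW τ m hm hτ hn ⟨v, hv1, hv2⟩
  obtain ⟨_, hcl⟩ := hW
  have hinv : ∀ w ∈ W, τ⁻¹ * w * τ ∈ W := by
    have h1 : ∀ k : ℕ, ∀ w ∈ W, τ ^ k * w * (τ ^ k)⁻¹ ∈ W := by
      intro k
      induction k with
      | zero => intro w hw; simpa using hw
      | succ k ih =>
        intro w hw
        have h2 := hn _ (ih w hw)
        have e : τ * (τ ^ k * w * (τ ^ k)⁻¹) * τ⁻¹ = τ ^ (k + 1) * w * (τ ^ (k + 1))⁻¹ := by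
          rw [pow_succ', mul_inv_rev]
          group
        rwa [e] at h2
    intro w hw
    have h2 := h1 (m - 1) w hw
    have h3 : τ ^ (m - 1) = τ⁻¹ := by
      rw [eq_comm, inv_eq_iff_mul_eq_one, ← pow_succ', Nat.sub_add_cancel hm, hτ]
    rw [h3, inv_inv] at h2
    exact h2
  let θ : W ≃* W :=
    { toFun := fun w => ⟨τ * w * τ⁻¹, hn _ w.2⟩
      invFun := fun w => ⟨τ⁻¹ * w * τ, hinv _ w.2⟩
      left_inv := fun w => by
        apply Subtype.ext
        show τ⁻¹ * (τ * (w : V ≃ₗ[ℂ] V) * τ⁻¹) * τ = w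
        group
      right_inv := fun w => by
        apply Subtype.ext
        show τ * (τ⁻¹ * (w : V ≃ₗ[ℂ] V) * τ) * τ⁻¹ = w
        group
      map_mul' := fun w w' => by
        apply Subtype.ext
        show τ * ((w : V ≃ₗ[ℂ] V) * w') * τ⁻¹ = (τ * w * τ⁻¹) * (τ * w' * τ⁻¹)
        group }
  have hθ : ∀ w, (θ w : V ≃ₗ[ℂ] V) = τ * w * τ⁻¹ := fun _ => rfl
  refine ⟨{
    ρ := (matB b).comp W.subtype
    θ := θ
    t := matB b τ
    m := m
    mpos := hm
    tm := ?_
    tρ := ?_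
    refl := ?_
    v := b.repr v
    tv := ?_
    vreg := ?_ }, rfl, rfl, hθ, ker_matB b τ⟩
  · rw [← map_pow, hτ, map_one]
  · intro w
    rw [MonoidHom.comp_apply, MonoidHom.comp_apply, Subgroup.subtype_apply, Subgroup.subtype_apply, hθ,
      map_mul, map_mul, map_inv]
  · apply Subgroup.map_injective W.subtype_injective
    rw [MonoidHom.map_closure]
    have e1 : W.subtype '' {s : W | (((matB b).comp W.subtype s).val - 1).rank = 1} = {s | s ∈ W ∧ IsRefl s} := by
      ext s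
      constructor
      · rintro ⟨w, hw, rfl⟩
        refine ⟨w.2, ?_⟩
        have hw' : ((matB b (w : V ≃ₗ[ℂ] V)).val - 1).rank = 1 := hw
        rw [rank_matB] at hw'
        exact hw'
      · rintro ⟨h1, h2⟩
        refine ⟨⟨s, h1⟩, ?_, rfl⟩
        show ((matB b s).val - 1).rank = 1
        rw [rank_matB]
        exact h2
    rw [e1, hcl, ← MonoidHom.range_eq_map, Subgroup.range_subtype]
  · rw [matB_mulVec, hv1]
  · intro w hw
    have h1 : (matB b (w : V ≃ₗ[ℂ] V)).val.mulVec (b.repr v) = b.repr v := hw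
    rw [matB_mulVec] at h1
    have h2 : (w : V ≃ₗ[ℂ] V) v = v := by
      apply b.repr.injective
      exact DFunLike.coe_injective h1
    exact Subtype.ext (hv2 w w.2 h2)

end Pool.Agent.V5helper61.CM
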