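import Pool.Agent.V5helper32.CM.Stm3

/-!
# CM/THMA: the Euler characteristic of the spherical module is the left hand side (helper61)
-/

namespace Pool.Agent.V5helper61.CM

open MvPolynomial
open Pool.Agent.V5helper32.CM

section

variable {W : Type} [Group W]

/-- twisting by `θ` in the group algebra -/
lemma twist_alg {E E' : Type} [AddCommGroup E] [Module ℂ E] [AddCommGroup E'] [Module ℂ E']
    (ρ : Representation ℂ W E) (ρ' : Representation ℂ W E') (θ : W ≃* W) (e : E' ≃ₗ[ℂ] E)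
    (he : ∀ w x, e (ρ' w x) = ρ (θ w) (e x)) (a : MonoidAlgebra ℂ W) (x : E') :
    ρ.asAlgebraHom (MonoidAlgebra.mapDomain θ a) (e x) = e (ρ'.asAlgebraHom a x) := by
  induction a using MonoidAlgebra.induction_linear with
  | zero => simp
  | add f g hf hg =>
    rw [MonoidAlgebra.mapDomain_add, map_add, map_add, LinearMap.add_apply, LinearMap.add_apply, hf, hg,
      map_add]
  | single w c =>
    rw [MonoidAlgebra.mapDomain_single, Representation.asAlgebraHom_single,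
      Representation.asAlgebraHom_single, LinearMap.smul_apply, LinearMap.smul_apply, map_smul, he]

/-- the sum of the blocks in the family -/
noncomputable def Ub (S : IrrSys W) (P : S.I → Prop) : Submodule ℂ (MonoidAlgebra ℂ W) where
  carrier := {a | ∀ i, ¬ P i → (S.ρ i).asAlgebraHom a = 0}
  add_mem' := by
    intro a b ha hb i hi
    rw [map_add, ha i hi, hb i hi, add_zero]
  zero_mem' := by
    intro i _
    rw [map_zero]
  smul_mem' := by
    intro c a ha i hi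
    rw [map_smul, ha i hi, smul_zero]

lemma mem_Ub (S : IrrSys W) (P : S.I → Prop) (a : MonoidAlgebra ℂ W) :
    a ∈ Ub S P ↔ ∀ i, ¬ P i → (S.ρ i).asAlgebraHom a = 0 := Iff.rfl

/-- every twist is in the system -/
lemma twist_ex (S : IrrSys W) (θ : W ≃* W) (i : S.I) : ∃ j, Tw S θ i j := by
  let ρ' : Representation ℂ W (S.E i) := (S.ρ i).comp (θ : W →* W)
  obtain ⟨j, e, he⟩ := S.surj (S.E i) ρ' (S.nt i) (by
    intro U hU
    refine S.irr i U fun w x hx => ?_
    have h := hU (θ.symm w) x hx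
    have e1 : ρ' (θ.symm w) x = S.ρ i w x := by
      show S.ρ i (θ (θ.symm w)) x = S.ρ i w x
      rw [MulEquiv.apply_symm_apply]
    rwa [e1] at h)
  exact ⟨j, e, he⟩

lemma Ub_stable (S : IrrSys W) (θ : W ≃* W) (P : S.I → Prop) (hP : ∀ i j, Tw S θ i j → (P i ↔ P j))
    {a : MonoidAlgebra ℂ W} (ha : a ∈ Ub S P) : MonoidAlgebra.mapDomain θ a ∈ Ub S P := by
  intro i hi
  obtain ⟨j, hij⟩ := twist_ex S θ i
  have hj : ¬ P j := fun h => hi ((hP i j hij).2 h)
  obtain ⟨e, he⟩ := hij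
  have h1 := ha j hj
  ext x
  obtain ⟨y, rfl⟩ := e.surjective x
  rw [twist_alg (S.ρ i) (S.ρ j) θ e he a y, h1]
  simp

end

theorem t_THMA (h1 : S_REGN) (h2 : S_TRACE) (h3 : S_REP) (h4 : S_CHAR) (h5 : S_PHI) : S_THMA := by
  classical
  intro n W _ _ D H _ _ Λ _ _ Sp _ _ _ _ A p hPG hPS S R hExt r en a ha
  have hp : ∀ z, p (A.σ z) = p z := fun z => hPS z (A.σ z) (A.hσ z)
  obtain ⟨hiso, hadd, _⟩ := h5.1 (Zc H) A.σ Λ A.s p hp
  rw [h1 n W D H Λ Sp A (phi A.s.ι p A.s.t) hiso hadd r en a ha]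
  have hfam : ∀ i j, Tw S D.θ i j → (Fam A.Φ p (S.ρ i) ↔ Fam A.Φ p (S.ρ j)) :=
    (h4 n W D H A.Φ S).2.1 p hPG hPS
  set P : S.I → Prop := fun i => Fam A.Φ p (S.ρ i) with hPdef
  let T0 : MonoidAlgebra ℂ W →ₗ[ℂ] MonoidAlgebra ℂ W :=
    (MonoidAlgebra.mapDomainAlgHom ℂ ℂ (D.θ : W →* W)).toLinearMap
  have hT0 : ∀ u, T0 u = MonoidAlgebra.mapDomain D.θ u := fun u => rfl
  let T : Ub S P →ₗ[ℂ] Ub S P := T0.restrict fun u hu => by
    rw [hT0]
    exact Ub_stable S D.θ P hfam hu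
  have hT : ∀ u : Ub S P, (T u : MonoidAlgebra ℂ W) =
      MonoidAlgebra.mapDomain D.θ (u : MonoidAlgebra ℂ W) := fun u => rfl
  rw [h2 n W D H Λ Sp A p hPG hPS S (Ub S P) (mem_Ub S P) T hT]
  have h6 := (h3 W D.θ S R P (fun i _ hi => hExt i hi) hfam).1 (Ub S P) (mem_Ub S P) T hT
  rw [h6]
  unfold lhs
  rw [Complex.ofReal_sum]
  refine Finset.sum_congr rfl fun i _ => ?_
  split_ifs
  · rfl
  · simp

end Pool.Agent.V5helper61.CM
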