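import Pool.Agent.V5helper32.CM.Stm5
import Pool.Agent.V5helper4.CM.Act

/-! # Project CM, job GRTR: graded traces (helper61) -/

namespace Pool.Agent.V5helper61.CM.GRTR

open MvPolynomial Pool.Agent.V5helper32.CM Pool.Agent.V5helper4.CM
open scoped Matrix

variable {n : ℕ}

/-- The space of homogeneous polynomials is preserved. -/
def Pres (T : MvPolynomial (Fin n) ℂ →ₗ[ℂ] MvPolynomial (Fin n) ℂ) : Prop :=
  ∀ (e : ℕ) (h : MvPolynomial (Fin n) ℂ), h ∈ homogeneousSubmodule (Fin n) ℂ e →
    T h ∈ homogeneousSubmodule (Fin n) ℂ e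

section basis

variable {S : Type} (b : Module.Basis S ℂ (MvPolynomial (Fin n) ℂ)) (deg : S → ℕ)
  (hb : ∀ s, (b s).IsHomogeneous (deg s))

include hb in
theorem repr_comp (h : MvPolynomial (Fin n) ℂ) (e : ℕ) (s : S) :
    b.repr (homogeneousComponent e h) s = if deg s = e then b.repr h s else 0 := by
  classical
  have key : (Finsupp.lapply s ∘ₗ b.repr.toLinearMap) ∘ₗ homogeneousComponent e =
      (if deg s = e then (1 : ℂ) else 0) • (Finsupp.lapply s ∘ₗ b.repr.toLinearMap) := by
    apply b.ext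
    intro r
    rw [LinearMap.comp_apply, homogeneousComponent_of_mem (hb r)]
    by_cases hr : e = deg r
    · rw [if_pos hr]
      by_cases hs : deg s = e
      · rw [if_pos hs, one_smul]
      · rw [if_neg hs, zero_smul, LinearMap.comp_apply, LinearEquiv.coe_coe, b.repr_self,
          Finsupp.lapply_apply, Finsupp.single_apply, if_neg, LinearMap.zero_apply]
        intro h1
        apply hs
        rw [hr, h1]
    · rw [if_neg hr, map_zero]
      by_cases hs : deg s = e
      · rw [if_pos hs, one_smul, LinearMap.comp_apply, LinearEquiv.coe_coe, b.repr_self,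
          Finsupp.lapply_apply, Finsupp.single_apply, if_neg]
        intro h1
        apply hr
        rw [← hs, h1]
      · rw [if_neg hs, zero_smul, LinearMap.zero_apply]
  have := DFunLike.congr_fun key h
  simp only [LinearMap.comp_apply, LinearEquiv.coe_coe, Finsupp.lapply_apply,
    LinearMap.smul_apply, smul_eq_mul] at this
  rw [this]
  split <;> simp

include hb in
theorem repr_eq_zero {h : MvPolynomial (Fin n) ℂ} {e : ℕ}
    (hh : h ∈ homogeneousSubmodule (Fin n) ℂ e) (s : S)
    (hs : deg s ≠ e) : b.repr h s = 0 := by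
  have := repr_comp b deg hb h e s
  rwa [homogeneousComponent_of_mem hh, if_pos rfl, if_neg hs] at this

/-- The basis of the homogeneous part. -/
noncomputable def hbasis (e : ℕ) :
    Module.Basis {s : S // deg s = e} ℂ (homogeneousSubmodule (Fin n) ℂ e) :=
  Module.Basis.mk
    (v := fun s => ⟨b s.1, by
      have := hb s.1
      rw [s.2] at this
      exact (mem_homogeneousSubmodule e _).2 this⟩)
    (by
      have h1 : LinearIndependent ℂ fun s : {s : S // deg s = e} => b s.1 :=
        b.linearIndependent.comp _ Subtype.val_injective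
      exact LinearIndependent.of_comp (homogeneousSubmodule (Fin n) ℂ e).subtype h1)
    (by
      rintro ⟨h, hh⟩ _
      have h1 : (⟨h, hh⟩ : homogeneousSubmodule (Fin n) ℂ e) =
          ∑ s ∈ (b.repr h).support.attach, b.repr h s.1 •
            (⟨b s.1, by
              rw [mem_homogeneousSubmodule]
              have : deg s.1 = e := by
                by_contra hne
                exact Finsupp.mem_support_iff.1 s.2 (repr_eq_zero b deg hb hh s.1 hne)
              rw [← this]
              exact hb s.1⟩ : homogeneousSubmodule (Fin n) ℂ e) := by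
        apply Subtype.ext
        rw [AddSubmonoidClass.coe_finsetSum]
        simp only [SetLike.val_smul]
        have h2 := b.linearCombination_repr h
        rw [Finsupp.linearCombination_apply, Finsupp.sum] at h2
        conv_lhs => rw [← h2]
        exact (Finset.sum_attach _ (fun s => b.repr h s • b s)).symm
      rw [h1]
      apply Submodule.sum_mem
      intro s _
      apply Submodule.smul_mem
      apply Submodule.subset_span
      have : deg s.1 = e := by
        by_contra hne
        exact Finsupp.mem_support_iff.1 s.2 (repr_eq_zero b deg hb hh s.1 hne)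
      exact ⟨⟨s.1, this⟩, rfl⟩)

theorem hbasis_apply (e : ℕ) (s : {s : S // deg s = e}) :
    ((hbasis b deg hb e s : homogeneousSubmodule (Fin n) ℂ e) : MvPolynomial (Fin n) ℂ) =
      b s.1 := by
  rw [hbasis, Module.Basis.mk_apply]

theorem hbasis_repr (e : ℕ) (x : homogeneousSubmodule (Fin n) ℂ e) (s : {s : S // deg s = e}) :
    (hbasis b deg hb e).repr x s = b.repr (x : MvPolynomial (Fin n) ℂ) s.1 := by
  classical
  have key : Finsupp.lapply s ∘ₗ (hbasis b deg hb e).repr.toLinearMap =
      (Finsupp.lapply s.1 ∘ₗ b.repr.toLinearMap) ∘ₗ (homogeneousSubmodule (Fin n) ℂ e).subtype := by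
    apply (hbasis b deg hb e).ext
    intro r
    rw [LinearMap.comp_apply, LinearMap.comp_apply, LinearMap.comp_apply, Submodule.subtype_apply,
      hbasis_apply, LinearEquiv.coe_coe, LinearEquiv.coe_coe, Module.Basis.repr_self,
      Module.Basis.repr_self, Finsupp.lapply_apply, Finsupp.lapply_apply, Finsupp.single_apply,
      Finsupp.single_apply]
    simp only [Subtype.ext_iff]
  exact DFunLike.congr_fun key x

include hb in
/-- The trace on the homogeneous part. -/
theorem trace_eq (T : MvPolynomial (Fin n) ℂ →ₗ[ℂ] MvPolynomial (Fin n) ℂ) (hT : Pres T) (e : ℕ)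
    [Fintype {s : S // deg s = e}] :
    LinearMap.trace ℂ _ (T.restrict (hT e)) =
      ∑ s : {s : S // deg s = e}, b.repr (T (b s.1)) s.1 := by
  classical
  rw [LinearMap.trace_eq_matrix_trace ℂ (hbasis b deg hb e), Matrix.trace]
  apply Finset.sum_congr rfl
  intro s _
  rw [Matrix.diag_apply, LinearMap.toMatrix_apply, hbasis_repr]
  congr 2
  rw [LinearMap.coe_restrict_apply, hbasis_apply]

end basis

/-- A homogeneous frame adapted to `T`. -/
structure Fr (n : ℕ) (T : MvPolynomial (Fin n) ℂ →ₐ[ℂ] MvPolynomial (Fin n) ℂ) where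
  f : Fin n → MvPolynomial (Fin n) ℂ
  d : Fin n → ℕ
  ζ : Fin n → ℂ
  hom : ∀ i, (f i).IsHomogeneous (d i)
  dpos : ∀ i, 0 < d i
  eig : ∀ i, T (f i) = ζ i • f i
  N : ℕ
  c : Fin N → MvPolynomial (Fin n) ℂ
  e : Fin N → ℕ
  chom : ∀ j, (c j).IsHomogeneous (e j)
  free : ∀ h, ∃! q : Fin N → MvPolynomial (Fin n) ℂ, h = ∑ j, aeval f (q j) * c j

section frame

variable {T : MvPolynomial (Fin n) ℂ →ₐ[ℂ] MvPolynomial (Fin n) ℂ} (R : Fr n T)

/-- The map `q ↦ Σ q_j(f) c_j`. -/
noncomputable def Phi : (Fin R.N → MvPolynomial (Fin n) ℂ) →ₗ[ℂ] MvPolynomial (Fin n) ℂ where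
  toFun q := ∑ j, aeval R.f (q j) * R.c j
  map_add' q r := by
    rw [← Finset.sum_add_distrib]
    apply Finset.sum_congr rfl
    intro j _
    rw [Pi.add_apply, map_add, add_mul]
  map_smul' z q := by
    rw [RingHom.id_apply, Finset.smul_sum]
    apply Finset.sum_congr rfl
    intro j _
    rw [Pi.smul_apply, map_smul, smul_mul_assoc]

theorem Phi_apply (q) : Phi R q = ∑ j, aeval R.f (q j) * R.c j := rfl

theorem Phi_bij : Function.Bijective (Phi R) := by
  rw [Function.bijective_iff_existsUnique]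
  intro h
  obtain ⟨q, hq, hu⟩ := R.free h
  exact ⟨q, hq.symm, fun r hr => hu r hr.symm⟩

/-- The coordinates. -/
noncomputable def E : (Fin R.N → MvPolynomial (Fin n) ℂ) ≃ₗ[ℂ] MvPolynomial (Fin n) ℂ :=
  LinearEquiv.ofBijective (Phi R) (Phi_bij R)

theorem E_apply (q) : E R q = ∑ j, aeval R.f (q j) * R.c j := rfl

/-- The basis. -/
noncomputable def bs : Module.Basis (Σ _ : Fin R.N, (Fin n →₀ ℕ)) ℂ (MvPolynomial (Fin n) ℂ) :=
  (Pi.basis fun _ => basisMonomials (Fin n) ℂ).map (E R)

theorem bs_apply (s : Σ _ : Fin R.N, (Fin n →₀ ℕ)) :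
    bs R s = aeval R.f (monomial s.2 (1 : ℂ)) * R.c s.1 := by
  classical
  rw [bs, Module.Basis.map_apply, Pi.basis_apply, E_apply, Finset.sum_eq_single s.1]
  · rw [Pi.single_eq_same, coe_basisMonomials]
  · intro j _ hj
    rw [Pi.single_eq_of_ne hj, map_zero, zero_mul]
  · intro h
    exact absurd (Finset.mem_univ _) h

theorem bs_repr (h : MvPolynomial (Fin n) ℂ) (s : Σ _ : Fin R.N, (Fin n →₀ ℕ)) :
    (bs R).repr h s = coeff s.2 ((E R).symm h s.1) := rfl

/-- The degrees. -/
def dg (s : Σ _ : Fin R.N, (Fin n →₀ ℕ)) : ℕ := R.e s.1 + ∑ i, s.2 i * R.d i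

theorem bs_hom (s : Σ _ : Fin R.N, (Fin n →₀ ℕ)) : (bs R s).IsHomogeneous (dg R s) := by
  rw [bs_apply, dg, add_comm]
  apply IsHomogeneous.mul _ (R.chom _)
  rw [aeval_monomial, map_one, one_mul, Finsupp.prod_fintype _ _ (fun i => pow_zero _)]
  apply IsHomogeneous.prod
  intro i _
  rw [mul_comm]
  exact (R.hom i).pow _

/-- The diagonal coefficients. -/
noncomputable def al (j : Fin R.N) : ℂ := coeff 0 ((E R).symm (T (R.c j)) j)

theorem diag (s : Σ _ : Fin R.N, (Fin n →₀ ℕ)) :
    (bs R).repr (T (bs R s)) s = (∏ i, R.ζ i ^ s.2 i) * al R s.1 := by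
  have h1 : T (aeval R.f (monomial s.2 (1 : ℂ))) =
      (∏ i, R.ζ i ^ s.2 i) • aeval R.f (monomial s.2 (1 : ℂ)) := by
    rw [aeval_monomial, map_one, one_mul, Finsupp.prod_fintype _ _ (fun i => pow_zero _), map_prod,
      smul_eq_C_mul, map_prod, ← Finset.prod_mul_distrib]
    apply Finset.prod_congr rfl
    intro i _
    rw [map_pow, R.eig, smul_pow, smul_eq_C_mul]
  have h2 : T (bs R s) = E R (fun l => (∏ i, R.ζ i ^ s.2 i) •
      (monomial s.2 (1 : ℂ) * (E R).symm (T (R.c s.1)) l)) := by
    rw [bs_apply, map_mul, h1, E_apply]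
    have h3 : T (R.c s.1) = E R ((E R).symm (T (R.c s.1))) := (LinearEquiv.apply_symm_apply _ _).symm
    conv_lhs => rw [h3, E_apply, Finset.mul_sum]
    apply Finset.sum_congr rfl
    intro l _
    rw [map_smul, map_mul, smul_mul_assoc, smul_mul_assoc, mul_assoc]
  rw [bs_repr, h2, LinearEquiv.symm_apply_apply, coeff_smul, smul_eq_mul, al]
  congr 1
  have := coeff_monomial_mul 0 s.2 (1 : ℂ) ((E R).symm (T (R.c s.1)) s.1)
  rw [add_zero, one_mul] at this
  exact this

/-- Exponents of given weighted degree. -/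
noncomputable def V (d : Fin n → ℕ) (e : ℕ) : Finset (Fin n →₀ ℕ) := by
  classical
  exact ((Finset.finsuppAntidiag Finset.univ e).filter (fun l => ∀ i, d i ∣ l i)).image
    (fun l => Finsupp.equivFunOnFinite.symm fun i => l i / d i)

theorem mem_V {d : Fin n → ℕ} (hd : ∀ i, 0 < d i) (e : ℕ) (ν : Fin n →₀ ℕ) :
    ν ∈ V d e ↔ ∑ i, ν i * d i = e := by
  classical
  rw [V, Finset.mem_image]
  constructor
  · rintro ⟨l, hl, rfl⟩
    rw [Finset.mem_filter, Finset.mem_finsuppAntidiag] at hl
    rw [← hl.1.1]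
    apply Finset.sum_congr rfl
    intro i _
    exact Nat.div_mul_cancel (hl.2 i)
  · intro h
    refine ⟨Finsupp.equivFunOnFinite.symm fun i => ν i * d i, ?_, ?_⟩
    · rw [Finset.mem_filter, Finset.mem_finsuppAntidiag]
      refine ⟨⟨h, Finset.subset_univ _⟩, fun i => Dvd.intro_left _ rfl⟩
    · ext i
      exact Nat.mul_div_cancel _ (hd i)

/-- The geometric series `Σ ζ^k X^(k d)`. -/
noncomputable def geo (ζ : ℂ) (d : ℕ) : PowerSeries ℂ :=
  PowerSeries.mk fun m => if d ∣ m then ζ ^ (m / d) else 0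

theorem geo_mul (ζ : ℂ) {d : ℕ} (hd : 0 < d) :
    geo ζ d * (1 - PowerSeries.C ζ * PowerSeries.X ^ d) = 1 := by
  have : geo ζ d = 1 + PowerSeries.X ^ d * (PowerSeries.C ζ * geo ζ d) := by
    ext m
    rw [map_add, PowerSeries.coeff_X_pow_mul', PowerSeries.coeff_one, geo, PowerSeries.coeff_mk]
    by_cases hm : d ≤ m
    · rw [if_pos hm, PowerSeries.coeff_C_mul, PowerSeries.coeff_mk, if_neg (by omega : m ≠ 0),
        zero_add]
      obtain ⟨k, rfl⟩ := Nat.exists_eq_add_of_le hm
      rw [Nat.add_sub_cancel_left]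
      by_cases hk : d ∣ k
      · obtain ⟨r, rfl⟩ := hk
        rw [if_pos (by exact ⟨1 + r, by ring⟩), if_pos (Dvd.intro _ rfl),
          Nat.mul_div_cancel_left _ hd, show d + d * r = d * (1 + r) by ring,
          Nat.mul_div_cancel_left _ hd, pow_add, pow_one]
      · rw [if_neg hk, if_neg, mul_zero]
        intro h
        exact hk ((Nat.dvd_add_right (dvd_refl d)).1 h)
    · rw [if_neg hm, add_zero]
      by_cases h0 : m = 0
      · rw [h0, if_pos (dvd_zero d), if_pos rfl, Nat.zero_div, pow_zero]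
      · rw [if_neg h0, if_neg]
        intro h
        exact hm (Nat.le_of_dvd (Nat.pos_of_ne_zero h0) h)
  linear_combination this

theorem coeff_geo {d : Fin n → ℕ} (ζ : Fin n → ℂ) (e : ℕ) :
    PowerSeries.coeff e (∏ i, geo (ζ i) (d i)) = ∑ ν ∈ V d e, ∏ i, ζ i ^ ν i := by
  classical
  rw [PowerSeries.coeff_prod, V, Finset.sum_image]
  · rw [← Finset.sum_filter_add_sum_filter_not _ (fun l : Fin n →₀ ℕ => ∀ i, d i ∣ l i)]
    have h0 : ∑ l ∈ (Finset.finsuppAntidiag Finset.univ e).filter
        (fun l : Fin n →₀ ℕ => ¬ ∀ i, d i ∣ l i), ∏ i, PowerSeries.coeff (l i) (geo (ζ i) (d i))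
          = 0 := by
      apply Finset.sum_eq_zero
      intro l hl
      have h1 := (Finset.mem_filter.1 hl).2
      push Not at h1
      obtain ⟨i, hi⟩ := h1
      apply Finset.prod_eq_zero (Finset.mem_univ i)
      rw [geo, PowerSeries.coeff_mk, if_neg hi]
    rw [h0, add_zero]
    apply Finset.sum_congr rfl
    intro l hl
    apply Finset.prod_congr rfl
    intro i _
    rw [geo, PowerSeries.coeff_mk, if_pos ((Finset.mem_filter.1 hl).2 i)]
    rfl
  · intro l hl l' hl' h
    have hl2 := (Finset.mem_filter.1 hl).2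
    have hl2' := (Finset.mem_filter.1 hl').2
    ext i
    have := DFunLike.congr_fun h i
    have h2 : l i / d i = l' i / d i := this
    rw [← Nat.div_mul_cancel (hl2 i), ← Nat.div_mul_cancel (hl2' i), h2]

instance fin_dg (e : ℕ) : Finite {s : Σ _ : Fin R.N, (Fin n →₀ ℕ) // dg R s = e} := by
  classical
  have : {s : Σ _ : Fin R.N, (Fin n →₀ ℕ) | dg R s = e} ⊆
      ((Finset.univ.sigma fun j : Fin R.N => V R.d (e - R.e j) : Finset _) :
        Set (Σ _ : Fin R.N, (Fin n →₀ ℕ))) := by
    intro s hs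
    rw [Finset.mem_coe, Finset.mem_sigma]
    refine ⟨Finset.mem_univ _, ?_⟩
    rw [mem_V R.dpos]
    have : R.e s.1 + ∑ i, s.2 i * R.d i = e := hs
    omega
  exact (Finset.finite_toSet _).subset this

/-- The generating function of the graded traces. -/
theorem gen_fun (hT : Pres T.toLinearMap) (e : ℕ) :
    LinearMap.trace ℂ _ (T.toLinearMap.restrict (hT e)) =
      PowerSeries.coeff e ((∑ j, PowerSeries.C (al R j) * PowerSeries.X ^ R.e j) *
        ∏ i, geo (R.ζ i) (R.d i)) := by
  classical
  have : Fintype {s : Σ _ : Fin R.N, (Fin n →₀ ℕ) // dg R s = e} := Fintype.ofFinite _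
  rw [trace_eq (bs R) (dg R) (bs_hom R) _ hT e, Finset.sum_mul, map_sum]
  have h1 : ∀ s : {s : Σ _ : Fin R.N, (Fin n →₀ ℕ) // dg R s = e},
      (bs R).repr (T.toLinearMap (bs R s.1)) s.1 = (∏ i, R.ζ i ^ s.1.2 i) * al R s.1.1 :=
    fun s => diag R s.1
  rw [Finset.sum_congr rfl fun s _ => h1 s]
  rw [← Finset.sum_subtype (Finset.univ.sigma fun j : Fin R.N =>
    if R.e j ≤ e then V R.d (e - R.e j) else ∅) (f := fun s => (∏ i, R.ζ i ^ s.2 i) * al R s.1)]
  · rw [Finset.sum_sigma]
    apply Finset.sum_congr rfl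
    intro j _
    rw [mul_assoc, PowerSeries.coeff_C_mul, PowerSeries.coeff_X_pow_mul']
    by_cases hj : R.e j ≤ e
    · rw [if_pos hj, if_pos hj, coeff_geo, Finset.mul_sum]
      apply Finset.sum_congr rfl
      intro ν _
      rw [mul_comm]
    · rw [if_neg hj, if_neg hj, Finset.sum_empty, mul_zero]
  · intro s
    rw [Finset.mem_sigma]
    by_cases hj : R.e s.1 ≤ e
    · rw [if_pos hj, mem_V R.dpos, dg]
      constructor
      · rintro ⟨_, h⟩
        omega
      · intro h
        exact ⟨Finset.mem_univ _, by omega⟩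
    · rw [if_neg hj, dg]
      constructor
      · rintro ⟨_, h⟩
        exact absurd h (Finset.notMem_empty _)
      · intro h
        omega

/-- Comparison of two frames. -/
theorem compare (hT : Pres T.toLinearMap) (R' : Fr n T) :
    (∑ j, PowerSeries.C (al R j) * PowerSeries.X ^ R.e j) * ∏ i, geo (R.ζ i) (R.d i) =
      (∑ j, PowerSeries.C (al R' j) * PowerSeries.X ^ R'.e j) *
        ∏ i, geo (R'.ζ i) (R'.d i) := by
  ext e
  rw [← gen_fun R hT, ← gen_fun R' hT]

end frame

/-- The value at one. -/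
theorem value_one (B : Polynomial ℂ) (ζ : Fin n → ℂ) (d : Fin n → ℕ) (hd : ∀ i, 0 < d i)
    (h : (B : PowerSeries ℂ) * ∏ i, geo (ζ i) (d i) = ∏ i, geo (ζ i) 1) :
    B.eval 1 = ∏ i, (if ζ i = 1 then (d i : ℂ) else 1) := by
  classical
  have h1 : (B : PowerSeries ℂ) * ∏ i, (1 - PowerSeries.C (ζ i) * PowerSeries.X ^ 1) =
      ∏ i, (1 - PowerSeries.C (ζ i) * PowerSeries.X ^ d i) := by
    have hG : (∏ i, geo (ζ i) (d i)) * ∏ i, (1 - PowerSeries.C (ζ i) * PowerSeries.X ^ d i) = 1 := by
      rw [← Finset.prod_mul_distrib]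
      exact Finset.prod_eq_one fun i _ => geo_mul _ (hd i)
    have hG' : (∏ i, geo (ζ i) 1) * ∏ i, (1 - PowerSeries.C (ζ i) * PowerSeries.X ^ 1) = 1 := by
      rw [← Finset.prod_mul_distrib]
      exact Finset.prod_eq_one fun i _ => geo_mul _ one_pos
    rw [← h] at hG'
    linear_combination (∏ i, (1 - PowerSeries.C (ζ i) * PowerSeries.X ^ d i)) * hG' -
      (B : PowerSeries ℂ) * (∏ i, (1 - PowerSeries.C (ζ i) * PowerSeries.X ^ 1)) * hG
  have h2 : B * ∏ i, (1 - Polynomial.C (ζ i) * Polynomial.X ^ 1) =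
      ∏ i, (1 - Polynomial.C (ζ i) * Polynomial.X ^ d i) := by
    apply Polynomial.coe_injective ℂ
    have e1 : ∀ m : Fin n → ℕ,
        ((∏ i, (1 - Polynomial.C (ζ i) * Polynomial.X ^ m i) : Polynomial ℂ) : PowerSeries ℂ) =
        ∏ i, (1 - PowerSeries.C (ζ i) * PowerSeries.X ^ m i) := by
      intro m
      rw [← Polynomial.coeToPowerSeries.ringHom_apply, map_prod]
      apply Finset.prod_congr rfl
      intro i _
      simp
    rw [Polynomial.coe_mul, e1 fun _ => 1, e1 d, h1]
  let u : Fin n → Polynomial ℂ := fun i => if ζ i = 1 then 1 - Polynomial.X else 1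
  let g : Fin n → Polynomial ℂ := fun i => if ζ i = 1 then
    ∑ k ∈ Finset.range (d i), Polynomial.X ^ k else 1 - Polynomial.C (ζ i) * Polynomial.X ^ d i
  let k : Fin n → Polynomial ℂ := fun i => if ζ i = 1 then 1 else
    1 - Polynomial.C (ζ i) * Polynomial.X ^ 1
  have h3 : ∀ i, (1 - Polynomial.C (ζ i) * Polynomial.X ^ 1) = u i * k i := by
    intro i
    by_cases hi : ζ i = 1
    · simp only [u, k, if_pos hi]
      rw [hi, map_one, pow_one, one_mul, mul_one]
    · simp only [u, k, if_neg hi]
      rw [one_mul]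
  have h4 : ∀ i, (1 - Polynomial.C (ζ i) * Polynomial.X ^ d i) = u i * g i := by
    intro i
    by_cases hi : ζ i = 1
    · simp only [u, g, if_pos hi]
      rw [hi, map_one, one_mul]
      exact (mul_neg_geom_sum (Polynomial.X : Polynomial ℂ) (d i)).symm
    · simp only [u, g, if_neg hi]
      rw [one_mul]
  rw [Finset.prod_congr rfl fun i _ => h3 i, Finset.prod_congr rfl fun i _ => h4 i,
    Finset.prod_mul_distrib, Finset.prod_mul_distrib] at h2
  have hu : (∏ i, u i) ≠ 0 := by
    rw [Finset.prod_ne_zero_iff]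
    intro i _
    by_cases hi : ζ i = 1
    · simp only [u, if_pos hi]
      intro h0
      have := congrArg (Polynomial.eval 0) h0
      simp at this
    · simp only [u, if_neg hi]
      exact one_ne_zero
  have h5 : B * ∏ i, k i = ∏ i, g i := by
    apply mul_left_cancel₀ hu
    rw [← h2]
    ring
  have h6 := congrArg (Polynomial.eval 1) h5
  rw [Polynomial.eval_mul, Polynomial.eval_prod, Polynomial.eval_prod] at h6
  have h7 : ∀ i, Polynomial.eval 1 (g i) =
      (if ζ i = 1 then (d i : ℂ) else 1) * Polynomial.eval 1 (k i) := by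
    intro i
    by_cases hi : ζ i = 1
    · simp only [g, k, if_pos hi]
      simp [Polynomial.eval_finsetSum]
    · simp only [g, k, if_neg hi]
      simp
  rw [Finset.prod_congr rfl fun i _ => h7 i, Finset.prod_mul_distrib] at h6
  refine mul_right_cancel₀ ?_ h6
  rw [Finset.prod_ne_zero_iff]
  intro i _
  by_cases hi : ζ i = 1
  · simp [k, if_pos hi]
  · simp only [k, if_neg hi]
    simp [sub_eq_zero]
    exact fun h => hi h.symm

section data

variable {W : Type} [Group W] [Fintype W] (D : Rd n W) (K : Cdat D)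

/-- The frame of the basic invariants. -/
noncomputable def fr : Fr n (act D.t) where
  f := K.f
  d := K.d
  ζ := K.ζ
  hom := K.hom
  dpos := K.dpos
  eig := K.eig
  N := K.N
  c := K.c
  e := fun j => (K.chom j).choose
  chom := fun j => (K.chom j).choose_spec
  free := K.free

theorem psi_mul (q h : MvPolynomial (Fin n) ℂ) :
    K.Ψ (aeval K.f q * h) = constantCoeff q • K.Ψ h := by
  have h1 : aeval K.f q - C (constantCoeff q) ∈ Ideal.span (Set.range K.f) := by
    rw [← Ideal.Quotient.eq]
    have : ((Ideal.Quotient.mk (Ideal.span (Set.range K.f))).comp (aeval K.f).toRingHom) =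
        ((Ideal.Quotient.mk (Ideal.span (Set.range K.f))).comp C).comp constantCoeff := by
      apply MvPolynomial.ringHom_ext
      · intro r
        simp
      · intro i
        simp only [RingHom.comp_apply, constantCoeff_X, map_zero]
        rw [Ideal.Quotient.eq_zero_iff_mem]
        apply Ideal.subset_span
        exact ⟨i, by simp⟩
    exact DFunLike.congr_fun this q
  have h2 : aeval K.f q * h - constantCoeff q • h ∈ Ideal.span (Set.range K.f) := by
    rw [smul_eq_C_mul, ← sub_mul]
    exact Ideal.mul_mem_right _ _ h1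
  rw [← K.ker, map_sub, map_smul, sub_eq_zero] at h2
  exact h2

/-- The coordinates for the basic invariants. -/
noncomputable def E' : (Fin K.N → MvPolynomial (Fin n) ℂ) ≃ₗ[ℂ] MvPolynomial (Fin n) ℂ :=
  E (fr D K)

theorem E'_apply (q : Fin K.N → MvPolynomial (Fin n) ℂ) :
    E' D K q = ∑ j, aeval K.f (q j) * K.c j := rfl

theorem al_eq (l : Fin K.N) :
    al (fr D K) l = coeff 0 ((E' D K).symm (act D.t (K.c l)) l) := rfl

theorem psi_E (q : Fin K.N → MvPolynomial (Fin n) ℂ) :
    K.Ψ (E' D K q) = ∑ l, constantCoeff (q l) • K.Ψ (K.c l) := by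
  rw [E'_apply, map_sum]
  apply Finset.sum_congr rfl
  intro l _
  exact psi_mul D K (q l) (K.c l)

theorem psi_zero (q : Fin K.N → MvPolynomial (Fin n) ℂ) (h : K.Ψ (E' D K q) = 0)
    (l : Fin K.N) : constantCoeff (q l) = 0 := by
  rw [K.ker, Ideal.mem_span_range_iff_exists_fun] at h
  obtain ⟨c, hc⟩ := h
  have h1 : E' D K (fun l => ∑ i, X i * (E' D K).symm (c i) l) = E' D K q := by
    rw [← hc, E'_apply]
    have h2 : ∀ i, c i * K.f i = K.f i * E' D K ((E' D K).symm (c i)) := by
      intro i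
      rw [LinearEquiv.apply_symm_apply, mul_comm]
    rw [Finset.sum_congr rfl fun i _ => h2 i]
    simp only [E'_apply, map_sum, map_mul, aeval_X, Finset.sum_mul, Finset.mul_sum]
    rw [Finset.sum_comm]
    apply Finset.sum_congr rfl
    intro i _
    apply Finset.sum_congr rfl
    intro l _
    exact mul_assoc _ _ _
  have h3 := (E' D K).injective h1
  rw [← h3, map_sum]
  apply Finset.sum_eq_zero
  intro i _
  rw [map_mul, constantCoeff_X, zero_mul]

/-- The images of the `c_j` are a basis of the functions on `W`. -/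
noncomputable def wb : Module.Basis (Fin K.N) ℂ (W → ℂ) :=
  Module.Basis.mk (v := fun l => K.Ψ (K.c l))
    (by
      rw [Fintype.linearIndependent_iff]
      intro g hg l
      have h1 := psi_zero D K (fun l => C (g l)) (by
        rw [psi_E, ← hg]
        apply Finset.sum_congr rfl
        intro l _
        rw [constantCoeff_C]) l
      rwa [constantCoeff_C] at h1)
    (by
      intro φ _
      obtain ⟨h, rfl⟩ := K.surj φ
      rw [← LinearEquiv.apply_symm_apply (E' D K) h, psi_E]
      apply Submodule.sum_mem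
      intro l _
      exact Submodule.smul_mem _ _ (Submodule.subset_span ⟨l, rfl⟩))

theorem wb_apply (l : Fin K.N) : wb D K l = K.Ψ (K.c l) := by
  rw [wb, Module.Basis.mk_apply]

/-- The translation on functions. -/
def PT : (W → ℂ) →ₗ[ℂ] (W → ℂ) where
  toFun φ u := φ (D.θ.symm u)
  map_add' _ _ := rfl
  map_smul' _ _ := rfl

theorem trace_al : LinearMap.trace ℂ _ (PT D) =
    ∑ l : Fin K.N, coeff 0 ((E' D K).symm (act D.t (K.c l)) l) := by
  classical
  rw [LinearMap.trace_eq_matrix_trace ℂ (wb D K), Matrix.trace]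
  apply Finset.sum_congr rfl
  intro l _
  rw [Matrix.diag_apply, LinearMap.toMatrix_apply]
  have h1 : PT D (wb D K l) = ∑ k, constantCoeff ((E' D K).symm (act D.t (K.c l)) k) •
      wb D K k := by
    have h2 : PT D (wb D K l) = K.Ψ (act D.t (K.c l)) := by
      funext u
      rw [K.Ψt, wb_apply]
      rfl
    rw [h2]
    conv_lhs => rw [← LinearEquiv.apply_symm_apply (E' D K) (act D.t (K.c l)), psi_E]
    apply Finset.sum_congr rfl
    intro k _
    rw [wb_apply]
  rw [h1, Module.Basis.repr_sum_self]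
  rfl

theorem trace_fix : LinearMap.trace ℂ _ (PT D) = (Nat.card {w : W // D.θ w = w} : ℂ) := by
  classical
  rw [LinearMap.trace_eq_matrix_trace ℂ (Pi.basisFun ℂ W), Matrix.trace]
  have h1 : ∀ w : W, (LinearMap.toMatrix (Pi.basisFun ℂ W) (Pi.basisFun ℂ W) (PT D)).diag w =
      if D.θ w = w then 1 else 0 := by
    intro w
    rw [Matrix.diag_apply, LinearMap.toMatrix_apply, Pi.basisFun_apply, Pi.basisFun_repr]
    change (Pi.single w (1 : ℂ) : W → ℂ) (D.θ.symm w) = _
    rw [Pi.single_apply]
    have : D.θ.symm w = w ↔ D.θ w = w := by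
      rw [MulEquiv.symm_apply_eq]
      exact eq_comm
    simp only [this]
  rw [Finset.sum_congr rfl fun w _ => h1 w, Finset.sum_boole, Nat.card_eq_fintype_card,
    Fintype.card_subtype]

end data

section linear

variable (M : Matrix (Fin n) (Fin n) ℂ)

/-- The linear forms of the rows. -/
noncomputable def L (i : Fin n) : MvPolynomial (Fin n) ℂ := ∑ j, C (M i j) * X j

theorem eval_L (x : Fin n → ℂ) (i : Fin n) : eval x (L M i) = M.mulVec x i := by
  simp [L, Matrix.mulVec, dotProduct]

/-- The frame of linear forms. -/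
noncomputable def lfr (hM : M.det ≠ 0) (t : Gl n) (ζ : Fin n → ℂ)
    (h : M * (t⁻¹).val = Matrix.diagonal ζ * M) : Fr n (act t) where
  f := L M
  d := fun _ => 1
  ζ := ζ
  hom := by
    intro i
    apply MvPolynomial.IsHomogeneous.sum
    intro j _
    have := (isHomogeneous_C (Fin n) (M i j)).mul (isHomogeneous_X ℂ j)
    simpa using this
  dpos := fun _ => one_pos
  eig := by
    intro i
    apply MvPolynomial.funext
    intro x
    rw [eval_act, eval_L, Matrix.mulVec_mulVec, h, ← Matrix.mulVec_mulVec,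
      Matrix.mulVec_diagonal, smul_eval, eval_L]
  N := 1
  c := fun _ => 1
  e := fun _ => 0
  chom := fun _ => isHomogeneous_one _ _
  free := by
    let g : Gl n := Matrix.GeneralLinearGroup.mkOfDetNeZero M hM
    have hg : ∀ q : MvPolynomial (Fin n) ℂ, aeval (L M) q = act g⁻¹ q := by
      intro q
      rw [act, inv_inv]
      rfl
    intro h
    refine ⟨fun _ => act g h, ?_, ?_⟩
    · simp only [Fin.sum_univ_one, mul_one]
      rw [hg, ← act_mul, inv_mul_cancel, act_one]
    · intro q hq
      simp only [Fin.sum_univ_one, mul_one] at hq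
      funext j
      rw [Subsingleton.elim j 0, hq, hg, ← act_mul, mul_inv_cancel, act_one]

theorem lfr_al (hM : M.det ≠ 0) (t : Gl n) (ζ : Fin n → ℂ)
    (h : M * (t⁻¹).val = Matrix.diagonal ζ * M) (j : Fin 1) :
    al (lfr M hM t ζ h) j = 1 := by
  have h1 : E (lfr M hM t ζ h) (fun _ => 1) = act t ((lfr M hM t ζ h).c j) := by
    rw [E_apply]
    change ∑ _ : Fin 1, aeval (L M) 1 * (1 : MvPolynomial (Fin n) ℂ) = act t 1
    rw [map_one, map_one, Fin.sum_univ_one, mul_one]
  change coeff 0 ((E (lfr M hM t ζ h)).symm (act t ((lfr M hM t ζ h).c j)) j) = 1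
  rw [← h1, LinearEquiv.symm_apply_apply, coeff_zero_one]

end linear

theorem pres_act (t : Gl n) : Pres (act t).toLinearMap := by
  intro e h hh
  exact act_hom t hh

theorem t_GRTR (hD : S_DIFF) : S_GRTR := by
  intro n W _ _ D K
  classical
  obtain ⟨hM0, hM⟩ := hD n W D K (Matrix.of fun i j => eval D.v (pderiv j (K.f i)))
    (fun _ _ => rfl)
  set M : Matrix (Fin n) (Fin n) ℂ := Matrix.of fun i j => eval D.v (pderiv j (K.f i)) with hMd
  refine ⟨?_, ?_⟩
  · have hu : IsUnit M.det := isUnit_iff_ne_zero.2 hM0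
    have h1 : M * ((D.t⁻¹).val * (D.t.val - 1)) = (Matrix.diagonal fun i => 1 - K.ζ i) * M := by
      have h2 : (D.t⁻¹).val * D.t.val = 1 := by
        rw [← Units.val_mul, inv_mul_cancel, Units.val_one]
      rw [mul_sub, h2, mul_one, mul_sub, hM, mul_one]
      have h3 : (Matrix.diagonal fun i => 1 - K.ζ i) = 1 - Matrix.diagonal K.ζ := by
        rw [← Matrix.diagonal_one, Matrix.diagonal_sub]
      rw [h3, sub_mul, one_mul]
    have hrk : (D.t.val - 1).rank = Fintype.card {i // 1 - K.ζ i ≠ 0} := by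
      have hut : IsUnit (D.t⁻¹).val.det :=
        (Matrix.isUnit_iff_isUnit_det _).1 (Units.isUnit (D.t⁻¹))
      rw [← Matrix.rank_mul_eq_right_of_isUnit_det _ (D.t.val - 1) hut,
        ← Matrix.rank_mul_eq_right_of_isUnit_det M _ hu, h1,
        Matrix.rank_mul_eq_left_of_isUnit_det _ _ hu, Matrix.rank_diagonal]
    have hrn := LinearMap.finrank_range_add_finrank_ker (Matrix.toLin' (D.t.val - 1))
    rw [Module.finrank_fin_fun] at hrn
    have hr2 : Module.finrank ℂ (LinearMap.range (Matrix.toLin' (D.t.val - 1))) =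
        (D.t.val - 1).rank := by
      rw [Matrix.rank, Matrix.toLin'_apply']
    rw [hr2, hrk] at hrn
    have hc : Nat.card {i // K.ζ i = 1} + Fintype.card {i // 1 - K.ζ i ≠ 0} = n := by
      rw [Nat.card_eq_fintype_card]
      have := Fintype.card_subtype_compl (fun i => K.ζ i = 1)
      have h5 : Fintype.card {i // 1 - K.ζ i ≠ 0} = Fintype.card {i // ¬ K.ζ i = 1} := by
        apply Fintype.card_congr
        apply Equiv.subtypeEquivRight
        intro i
        rw [Ne, sub_eq_zero, eq_comm]
      rw [h5, this, Fintype.card_fin]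
      have h6 : Fintype.card {i // K.ζ i = 1} ≤ Fintype.card (Fin n) := Fintype.card_subtype_le _
      rw [Fintype.card_fin] at h6
      omega
    omega
  · have hcmp := compare (fr D K) (pres_act D.t) (lfr M hM0 D.t K.ζ hM)
    have hR : (∑ j, PowerSeries.C (al (lfr M hM0 D.t K.ζ hM) j) *
        PowerSeries.X ^ (lfr M hM0 D.t K.ζ hM).e j : PowerSeries ℂ) = 1 := by
      change (∑ j : Fin 1, PowerSeries.C (al (lfr M hM0 D.t K.ζ hM) j) *
        PowerSeries.X ^ 0 : PowerSeries ℂ) = 1
      rw [Fin.sum_univ_one, lfr_al, map_one, pow_zero, mul_one]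
    rw [hR, one_mul] at hcmp
    have hB : ((∑ j, Polynomial.C (al (fr D K) j) * Polynomial.X ^ (fr D K).e j : Polynomial ℂ) :
        PowerSeries ℂ) = ∑ j, PowerSeries.C (al (fr D K) j) * PowerSeries.X ^ (fr D K).e j := by
      rw [← Polynomial.coeToPowerSeries.ringHom_apply, map_sum]
      apply Finset.sum_congr rfl
      intro i _
      simp
    rw [← hB] at hcmp
    have hv := value_one _ K.ζ K.d K.dpos hcmp
    rw [Polynomial.eval_finsetSum] at hv
    simp only [Polynomial.eval_mul, Polynomial.eval_C, Polynomial.eval_pow, Polynomial.eval_X,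
      one_pow, mul_one] at hv
    have h3 : (Nat.card {w : W // D.θ w = w} : ℂ) = ∏ i, (if K.ζ i = 1 then (K.d i : ℂ) else 1) := by
      rw [← trace_fix, trace_al D K, ← hv]
      rfl
    have h4 : ((∏ i, Function.update (fun _ : ℂ => 1) 1 (K.d i) (K.ζ i) : ℕ) : ℂ) =
        ∏ i, (if K.ζ i = 1 then (K.d i : ℂ) else 1) := by
      rw [Nat.cast_prod]
      apply Finset.prod_congr rfl
      intro i _
      rw [Function.update_apply]
      split <;> simp
    exact_mod_cast h4.trans h3.symm

end Pool.Agent.V5helper61.CM.GRTR
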