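import Pool.Agent.V5helper32.CM.Stm5
import Pool.Agent.V5helper4.CM.Act

/-! # Project CM, job JACD: at most `Σ (d_i - 1)` reflections (helper61) -/

namespace Pool.Agent.V5helper61.CM.JACD

open MvPolynomial Pool.Agent.V5helper32.CM Pool.Agent.V5helper4.CM
open scoped Matrix

variable {a : ℕ}

/-- The polynomial of a linear form. -/
noncomputable def lin (α : Fin a → ℂ) : MvPolynomial (Fin a) ℂ := ∑ j, C (α j) * X j

theorem eval_lin (α x : Fin a → ℂ) : eval x (lin α) = α ⬝ᵥ x := by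
  simp [lin, dotProduct]

theorem lin_hom (α : Fin a → ℂ) : (lin α).IsHomogeneous 1 := by
  apply MvPolynomial.IsHomogeneous.sum
  intro j _
  have := (isHomogeneous_C (Fin a) (α j)).mul (isHomogeneous_X ℂ j)
  simpa using this

theorem exists_one {α : Fin a → ℂ} (hα : α ≠ 0) : ∃ x : Fin a → ℂ, α ⬝ᵥ x = 1 := by
  obtain ⟨i, hi⟩ := Function.ne_iff.1 hα
  refine ⟨Pi.single i (α i)⁻¹, ?_⟩
  rw [dotProduct_single]
  exact mul_inv_cancel₀ hi

theorem lin_ne {α : Fin a → ℂ} (hα : α ≠ 0) : lin α ≠ 0 := by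
  intro h
  obtain ⟨x, hx⟩ := exists_one hα
  have := eval_lin α x
  rw [h, map_zero, hx] at this
  exact zero_ne_one this

theorem lin_irr {α : Fin a → ℂ} (hα : α ≠ 0) : Irreducible (lin α) := by
  apply irreducible_of_totalDegree_eq_one
  · exact (lin_hom α).totalDegree (lin_ne hα)
  · intro x hx
    by_contra hu
    have h0 : x = 0 := by
      by_contra h
      exact hu (isUnit_iff_ne_zero.2 h)
    apply lin_ne hα
    ext m
    obtain ⟨c, hc⟩ := hx m
    rw [hc, h0, zero_mul, coeff_zero]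

theorem lin_dvd {α β : Fin a → ℂ} (h : lin α ∣ lin β) (x : Fin a → ℂ) (hx : α ⬝ᵥ x = 0) :
    β ⬝ᵥ x = 0 := by
  obtain ⟨c, hc⟩ := h
  rw [← eval_lin, hc, map_mul, eval_lin, hx, zero_mul]

theorem lin_rel {α β : Fin a → ℂ} (hα : α ≠ 0) (hβ : β ≠ 0)
    (h : {x : Fin a → ℂ | α ⬝ᵥ x = 0} ≠ {x | β ⬝ᵥ x = 0}) : IsRelPrime (lin α) (lin β) := by
  rw [(lin_irr hα).isRelPrime_iff_not_dvd]
  intro hd
  apply h
  have h2 := ((lin_irr hα).associated_of_dvd (lin_irr hβ) hd).symm.dvd
  ext x
  exact ⟨fun hx => lin_dvd hd x hx, fun hx => lin_dvd h2 x hx⟩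

/-- A matrix of rank one has a row with the same kernel. -/
theorem rk1 (N : Matrix (Fin a) (Fin a) ℂ) (h : N.rank = 1) :
    ∃ α : Fin a → ℂ, α ≠ 0 ∧ ∀ x, N.mulVec x = 0 ↔ α ⬝ᵥ x = 0 := by
  rw [Matrix.rank] at h
  obtain ⟨⟨b, y, hy⟩, hb0, hb⟩ := finrank_eq_one_iff'.1 h
  have hb1 : b ≠ 0 := fun h0 => hb0 (Subtype.ext h0)
  have hN : ∀ x, ∃ c : ℂ, N.mulVec x = c • b := by
    intro x
    obtain ⟨c, hc⟩ := hb ⟨N.mulVecLin x, x, rfl⟩
    refine ⟨c, ?_⟩
    have := congrArg Subtype.val hc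
    simpa using this.symm
  obtain ⟨i, hi⟩ := Function.ne_iff.1 hb1
  have hrow : ∀ x, N i ⬝ᵥ x = (N.mulVec x) i := fun x => rfl
  refine ⟨N i, ?_, ?_⟩
  · intro h0
    apply hi
    have h1 : (N.mulVec y) i = b i := congrFun hy i
    rw [← h1, ← hrow, h0, zero_dotProduct]
    rfl
  · intro x
    rw [hrow]
    constructor
    · intro hx
      rw [hx]
      rfl
    · intro hx
      obtain ⟨c, hc⟩ := hN x
      rw [hc] at hx ⊢
      rw [Pi.smul_apply, smul_eq_mul] at hx
      have : c = 0 := (mul_eq_zero.1 hx).resolve_right hi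
      rw [this, zero_smul]

/-- A linear map which is the identity on a hyperplane. -/
theorem fixform (A : Matrix (Fin a) (Fin a) ℂ) {α : Fin a → ℂ} (hα : α ≠ 0)
    (h : ∀ x, α ⬝ᵥ x = 0 → A.mulVec x = x) :
    ∃ b : Fin a → ℂ, ∀ x, A.mulVec x = x + (α ⬝ᵥ x) • b := by
  obtain ⟨y, hy⟩ := exists_one hα
  refine ⟨A.mulVec y - y, fun x => ?_⟩
  have h1 := h (x - (α ⬝ᵥ x) • y) (by
    rw [dotProduct_sub, dotProduct_smul, hy, smul_eq_mul, mul_one, sub_self])
  rw [Matrix.mulVec_sub, Matrix.mulVec_smul] at h1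
  rw [smul_sub]
  linear_combination (exp := 1) h1

theorem mat_eq (A : Matrix (Fin a) (Fin a) ℂ) (α b : Fin a → ℂ)
    (h : ∀ x, A.mulVec x = x + (α ⬝ᵥ x) • b) :
    A = 1 + Matrix.replicateCol Unit b * Matrix.replicateRow Unit α := by
  apply Matrix.ext_of_mulVec_single
  intro i
  rw [h, Matrix.add_mulVec, Matrix.one_mulVec, ← Matrix.mulVec_mulVec]
  congr 1
  ext j
  simp [Matrix.mulVec, dotProduct, mul_comm, Pi.single_apply]

theorem det_eq (A : Matrix (Fin a) (Fin a) ℂ) (α b : Fin a → ℂ)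
    (h : ∀ x, A.mulVec x = x + (α ⬝ᵥ x) • b) : A.det = 1 + α ⬝ᵥ b := by
  rw [mat_eq A α b h, Matrix.det_one_add_replicateCol_mul_replicateRow]

theorem act_lin (g : Gl a) {α b : Fin a → ℂ}
    (h : ∀ x, (g⁻¹).val.mulVec x = x + (α ⬝ᵥ x) • b) :
    act g (lin α) = C ((g⁻¹).val.det) * lin α := by
  apply MvPolynomial.funext
  intro x
  rw [eval_act, eval_lin, h, map_mul, eval_C, eval_lin, det_eq _ α b h, dotProduct_add,
    dotProduct_smul, smul_eq_mul]
  ring

theorem act_sub (g : Gl a) {α b : Fin a → ℂ}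
    (h : ∀ x, (g⁻¹).val.mulVec x = x + (α ⬝ᵥ x) • b) (Q : MvPolynomial (Fin a) ℂ) :
    lin α ∣ act g Q - Q := by
  rw [← Ideal.mem_span_singleton, ← Ideal.Quotient.eq]
  have : ((Ideal.Quotient.mkₐ ℂ (Ideal.span {lin α})).comp (act g)) =
      Ideal.Quotient.mkₐ ℂ (Ideal.span {lin α}) := by
    apply MvPolynomial.algHom_ext
    intro i
    rw [AlgHom.comp_apply, Ideal.Quotient.mkₐ_eq_mk, Ideal.Quotient.eq, Ideal.mem_span_singleton]
    refine ⟨C (b i), ?_⟩
    apply MvPolynomial.funext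
    intro x
    rw [map_sub, eval_act, h, eval_X, eval_X, map_mul, eval_lin, eval_C]
    simp
  exact DFunLike.congr_fun this Q

/-- The chain rule. -/
theorem pd_act (g : Gl a) (j : Fin a) (h : MvPolynomial (Fin a) ℂ) :
    pderiv j (act g h) = ∑ k, act g (pderiv k h) * C ((g⁻¹).val k j) := by
  classical
  induction h using MvPolynomial.induction_on with
  | C c =>
    have : act g (C c) = C c := (act g).commutes c
    rw [this]
    simp
  | add p q hp hq =>
    rw [map_add, map_add, hp, hq, ← Finset.sum_add_distrib]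
    apply Finset.sum_congr rfl
    intro k _
    rw [map_add, map_add, add_mul]
  | mul_X p i hp =>
    rw [map_mul, Derivation.leibniz, hp]
    have h1 : pderiv j (act g (X i)) = C ((g⁻¹).val i j) := by
      simp only [act, aeval_X, map_sum, Derivation.leibniz, pderiv_C,
        pderiv_X, smul_eq_mul]
      rw [Finset.sum_eq_single j]
      · simp
      · intro b _ hb
        rw [Pi.single_eq_of_ne hb, mul_zero, mul_zero, add_zero]
      · intro hh
        exact absurd (Finset.mem_univ _) hh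
    rw [h1]
    have h2 : ∀ k, act g (pderiv k (p * X i)) * C ((g⁻¹).val k j) =
        act g p * (act g (pderiv k (X i)) * C ((g⁻¹).val k j)) +
          act g (X i) * (act g (pderiv k p) * C ((g⁻¹).val k j)) := by
      intro k
      rw [Derivation.leibniz, map_add, smul_eq_mul, smul_eq_mul, map_mul, map_mul]
      ring
    simp only [h2]
    rw [Finset.sum_add_distrib, ← Finset.mul_sum, ← Finset.mul_sum, smul_eq_mul, smul_eq_mul]
    congr 2
    rw [Finset.sum_eq_single i]
    · rw [pderiv_X_self, map_one, one_mul]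
    · intro b _ hb
      rw [pderiv_X_of_ne (Ne.symm hb), map_zero, zero_mul]
    · intro hh
      exact absurd (Finset.mem_univ _) hh

/-- The Jacobian matrix. -/
noncomputable def jac (f : Fin a → MvPolynomial (Fin a) ℂ) :
    Matrix (Fin a) (Fin a) (MvPolynomial (Fin a) ℂ) := Matrix.of fun i j => pderiv j (f i)

theorem jac_act (g : Gl a) (f : Fin a → MvPolynomial (Fin a) ℂ) (hf : ∀ i, act g (f i) = f i) :
    (jac f).det = C ((g⁻¹).val.det) * act g (jac f).det := by
  have h1 : jac f = (jac f).map (act g) * ((g⁻¹).val).map C := by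
    ext1 i j
    rw [Matrix.mul_apply]
    simp only [jac, Matrix.of_apply, Matrix.map_apply]
    rw [← pd_act, hf]
  have h2 : ((jac f).map (act g)).det = act g (jac f).det := by
    rw [AlgHom.map_det]
    rfl
  have h3 : (((g⁻¹).val).map (C : ℂ → MvPolynomial (Fin a) ℂ)).det = C ((g⁻¹).val.det) := by
    rw [RingHom.map_det]
    rfl
  calc (jac f).det = ((jac f).map (act g) * ((g⁻¹).val).map C).det := by rw [← h1]
    _ = _ := by rw [Matrix.det_mul, h2, h3, mul_comm]

theorem pow_form (A : Matrix (Fin a) (Fin a) ℂ) (α b : Fin a → ℂ)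
    (h : ∀ x, A.mulVec x = x + (α ⬝ᵥ x) • b) (h0 : α ⬝ᵥ b = 0) (m : ℕ) (x : Fin a → ℂ) :
    (A ^ m).mulVec x = x + (m * (α ⬝ᵥ x)) • b := by
  induction m with
  | zero => simp
  | succ m ih =>
    rw [pow_succ', ← Matrix.mulVec_mulVec, ih, h, dotProduct_add, dotProduct_smul, h0, smul_zero,
      add_zero, add_assoc, ← add_smul]
    push_cast
    congr 2
    ring

section group

variable {G : Type} [Group G] [Fintype G] (ρ : G →* Gl a)

/-- An element of determinant one which fixes a hyperplane is trivial. -/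
theorem triv (hρ : Function.Injective ρ) {α : Fin a → ℂ} (hα : α ≠ 0) (g : G)
    (h : ∀ x, α ⬝ᵥ x = 0 → (ρ g).val.mulVec x = x) (hd : (ρ g).val.det = 1) : g = 1 := by
  obtain ⟨b, hb⟩ := fixform _ hα h
  have h0 : α ⬝ᵥ b = 0 := by
    have := det_eq _ α b hb
    rw [hd] at this
    linear_combination -this
  have h1 : (ρ g).val ^ Fintype.card G = 1 := by
    rw [← Units.val_pow_eq_pow_val, ← map_pow, pow_card_eq_one, map_one, Units.val_one]
  obtain ⟨y, hy⟩ := exists_one hα
  have h2 := pow_form _ α b hb h0 (Fintype.card G) y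
  rw [h1, Matrix.one_mulVec, hy, mul_one] at h2
  have h3 : (Fintype.card G : ℂ) • b = 0 := by
    linear_combination (exp := 1) -h2
  have h4 : b = 0 := by
    rcases smul_eq_zero.1 h3 with h | h
    · exact absurd (Nat.cast_eq_zero.1 h) Fintype.card_ne_zero
    · exact h
  apply hρ
  rw [map_one]
  apply Units.ext
  rw [Units.val_one]
  apply Matrix.ext_of_mulVec_single
  intro i
  rw [hb, h4, smul_zero, add_zero, Matrix.one_mulVec]

omit [Fintype G] in
theorem fix_inv (g : G) {x : Fin a → ℂ} (h : (ρ g).val.mulVec x = x) :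
    (ρ g⁻¹).val.mulVec x = x := by
  have : (ρ g⁻¹).val.mulVec ((ρ g).val.mulVec x) = x := by
    rw [Matrix.mulVec_mulVec, ← Units.val_mul, ← map_mul, inv_mul_cancel, map_one, Units.val_one,
      Matrix.one_mulVec]
  rwa [h] at this

/-- The divisibility by the power of one linear form. -/
theorem pow_dvd (hρ : Function.Injective ρ) {J : MvPolynomial (Fin a) ℂ} (hJ0 : J ≠ 0)
    (hJ : ∀ g, J = C ((ρ g)⁻¹.val.det) * act (ρ g) J) {α : Fin a → ℂ} (hα : α ≠ 0)
    (S : Finset G) (hS : ∀ g ∈ S, ∀ x, α ⬝ᵥ x = 0 → (ρ g).val.mulVec x = x) :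
    lin α ^ (S.card - 1) ∣ J := by
  classical
  have hfin : FiniteMultiplicity (lin α) J :=
    FiniteMultiplicity.of_not_isUnit (lin_irr hα).not_isUnit hJ0
  obtain ⟨Q, hQ, hnd⟩ := hfin.exists_eq_pow_mul_and_not_dvd
  set k := multiplicity (lin α) J with hk
  have hkey : ∀ g ∈ S, ((ρ g)⁻¹.val.det) ^ (k + 1) = 1 := by
    intro g hg
    obtain ⟨b, hb⟩ := fixform ((ρ g)⁻¹.val) hα (by
      intro x hx
      have := fix_inv ρ g (hS g hg x hx)
      rwa [map_inv] at this)
    obtain ⟨R, hR⟩ := act_sub (ρ g) hb Q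
    have h1 := act_lin (ρ g) hb
    have h2 := hJ g
    rw [hQ, map_mul, map_pow, h1, mul_pow] at h2
    set δ := (ρ g)⁻¹.val.det with hδ
    have h3 : act (ρ g) Q = Q + lin α * R := by rw [← hR]; ring
    rw [h3] at h2
    have h4 : lin α ^ k * Q = lin α ^ k * (C (δ ^ (k + 1)) * (Q + lin α * R)) := by
      rw [h2, map_pow, pow_succ]
      ring
    have h5 : Q = C (δ ^ (k + 1)) * (Q + lin α * R) :=
      mul_left_cancel₀ (pow_ne_zero _ (lin_ne hα)) h4
    by_contra hne
    apply hnd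
    have h6 : C (1 - δ ^ (k + 1)) * Q = lin α * (C (δ ^ (k + 1)) * R) := by
      rw [C_sub, C_1]
      linear_combination h5
    have h7 : Q = lin α * (C ((1 - δ ^ (k + 1))⁻¹) * (C (δ ^ (k + 1)) * R)) := by
      calc Q = C ((1 - δ ^ (k + 1))⁻¹) * (C (1 - δ ^ (k + 1)) * Q) := by
            rw [← mul_assoc, ← C_mul, inv_mul_cancel₀ (sub_ne_zero.2 (Ne.symm hne)), C_1, one_mul]
        _ = _ := by rw [h6]; ring
    exact ⟨_, h7⟩
  have hcard : S.card ≤ k + 1 := by
    have hinj : Set.InjOn (fun g => (ρ g)⁻¹.val.det) (S : Set G) := by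
      intro g hg h hh hgh
      have hgh' : (ρ g)⁻¹.val.det = (ρ h)⁻¹.val.det := hgh
      have h1 : g⁻¹ * h = 1 := by
        apply triv ρ hρ hα
        · intro x hx
          rw [map_mul, Units.val_mul, ← Matrix.mulVec_mulVec, hS h hh x hx]
          exact fix_inv ρ g (hS g hg x hx)
        · rw [map_mul, Units.val_mul, Matrix.det_mul, map_inv, hgh', ← Matrix.det_mul,
            ← Units.val_mul, inv_mul_cancel, Units.val_one, Matrix.det_one]
      exact (inv_mul_eq_one.1 h1)
    have hsub : S.image (fun g => (ρ g)⁻¹.val.det) ⊆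
        (Polynomial.nthRoots (k + 1) (1 : ℂ)).toFinset := by
      intro z hz
      obtain ⟨g, hg, rfl⟩ := Finset.mem_image.1 hz
      rw [Multiset.mem_toFinset, Polynomial.mem_nthRoots (Nat.succ_pos k)]
      exact hkey g hg
    calc S.card = (S.image (fun g => (ρ g)⁻¹.val.det)).card :=
          (Finset.card_image_of_injOn hinj).symm
      _ ≤ (Polynomial.nthRoots (k + 1) (1 : ℂ)).toFinset.card := Finset.card_le_card hsub
      _ ≤ Multiset.card (Polynomial.nthRoots (k + 1) (1 : ℂ)) := Multiset.toFinset_card_le _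
      _ ≤ k + 1 := Polynomial.card_nthRoots _ _
  rw [hQ]
  exact Dvd.dvd.mul_right (pow_dvd_pow _ (by omega)) _

end group

theorem det_hom (M : Matrix (Fin a) (Fin a) (MvPolynomial (Fin a) ℂ)) (e : Fin a → ℕ)
    (h : ∀ i j, (M i j).IsHomogeneous (e i)) : M.det.IsHomogeneous (∑ i, e i) := by
  rw [← Matrix.det_transpose, Matrix.det_apply]
  apply MvPolynomial.IsHomogeneous.sum
  intro σ _
  have h1 : (∏ i, M.transpose (σ i) i).IsHomogeneous (∑ i, e i) := by
    apply MvPolynomial.IsHomogeneous.prod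
    intro i _
    exact h i (σ i)
  rcases Int.units_eq_one_or (Equiv.Perm.sign σ) with h2 | h2
  · rw [h2, one_smul]
    exact h1
  · rw [h2, Units.neg_smul, one_smul]
    exact h1.neg

theorem pderiv_hom {f : MvPolynomial (Fin a) ℂ} {d : ℕ} (h : f.IsHomogeneous d) (j : Fin a) :
    (pderiv j f).IsHomogeneous (d - 1) := by
  exact h.pderiv

theorem t_JACD (h : S_JACI) : S_JACD := by
  intro a G _ _ ρ hρ f d hf hd hinv hai
  classical
  have hJ0 : (jac f).det ≠ 0 := (h a f).1 hai
  have hJ : ∀ g, (jac f).det = C ((ρ g)⁻¹.val.det) * act (ρ g) (jac f).det :=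
    fun g => jac_act (ρ g) f (fun i => hinv i g)
  have hJh : (jac f).det.IsHomogeneous (∑ i, (d i - 1)) :=
    det_hom _ _ fun i j => pderiv_hom (hf i) j
  set R : Finset G := Finset.univ.filter (fun g : G => ((ρ g).val - 1).rank = 1) with hR
  let K : G → Set (Fin a → ℂ) := fun g => {x | (ρ g).val.mulVec x = x}
  have hK : ∀ g ∈ R, ∃ α : Fin a → ℂ, α ≠ 0 ∧ K g = {x | α ⬝ᵥ x = 0} := by
    intro g hg
    obtain ⟨α, hα, h1⟩ := rk1 _ (Finset.mem_filter.1 hg).2
    refine ⟨α, hα, ?_⟩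
    ext x
    constructor
    · intro hx
      apply (h1 x).1
      rw [Matrix.sub_mulVec, Matrix.one_mulVec, sub_eq_zero]
      exact hx
    · intro hx
      have := (h1 x).2 hx
      rw [Matrix.sub_mulVec, Matrix.one_mulVec, sub_eq_zero] at this
      exact this
  have hH : ∀ H ∈ R.image K, ∃ α : Fin a → ℂ, α ≠ 0 ∧ H = {x | α ⬝ᵥ x = 0} := by
    intro H hH
    obtain ⟨g, hg, rfl⟩ := Finset.mem_image.1 hH
    exact hK g hg
  choose! α hα0 hα using hH
  let S : Set (Fin a → ℂ) → Finset G := fun H =>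
    Finset.univ.filter fun g => ∀ x ∈ H, (ρ g).val.mulVec x = x
  have hRc : R.card ≤ ∑ H ∈ R.image K, ((S H).card - 1) := by
    rw [Finset.card_eq_sum_card_image K R]
    apply Finset.sum_le_sum
    intro H hH
    have h1 : (R.filter fun g => K g = H) ⊆ (S H).erase 1 := by
      intro g hg
      rw [Finset.mem_filter] at hg
      rw [Finset.mem_erase]
      refine ⟨?_, ?_⟩
      · intro h1
        have h2 := (Finset.mem_filter.1 hg.1).2
        rw [h1, map_one, Units.val_one, sub_self, Matrix.rank_zero] at h2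
        exact zero_ne_one h2
      · rw [Finset.mem_filter]
        refine ⟨Finset.mem_univ _, fun x hx => ?_⟩
        rw [← hg.2] at hx
        exact hx
    have h2 : (1 : G) ∈ S H := by
      rw [Finset.mem_filter]
      refine ⟨Finset.mem_univ _, fun x _ => ?_⟩
      rw [map_one, Units.val_one, Matrix.one_mulVec]
    calc (R.filter fun g => K g = H).card ≤ ((S H).erase 1).card := Finset.card_le_card h1
      _ = (S H).card - 1 := Finset.card_erase_of_mem h2
  have hdvd : (∏ H ∈ R.image K, lin (α H) ^ ((S H).card - 1)) ∣ (jac f).det := by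
    apply Finset.prod_dvd_of_isRelPrime
    · intro H hH H' hH' hne
      apply IsRelPrime.pow
      apply lin_rel (hα0 H hH) (hα0 H' hH')
      rw [← hα H hH, ← hα H' hH']
      exact hne
    · intro H hH
      apply pow_dvd ρ hρ hJ0 hJ (hα0 H hH)
      intro g hg x hx
      apply (Finset.mem_filter.1 hg).2
      rw [hα H hH]
      exact hx
  have hPh : (∏ H ∈ R.image K, lin (α H) ^ ((S H).card - 1)).IsHomogeneous
      (∑ H ∈ R.image K, ((S H).card - 1)) := by
    apply MvPolynomial.IsHomogeneous.prod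
    intro H _
    have := (lin_hom (α H)).pow ((S H).card - 1)
    rwa [one_mul] at this
  obtain ⟨Q, hQ⟩ := hdvd
  have hP0 : (∏ H ∈ R.image K, lin (α H) ^ ((S H).card - 1)) ≠ 0 := by
    intro h0
    rw [h0, zero_mul] at hQ
    exact hJ0 hQ
  have hQ0 : Q ≠ 0 := by
    intro h0
    rw [h0, mul_zero] at hQ
    exact hJ0 hQ
  have hdeg : (∑ H ∈ R.image K, ((S H).card - 1)) ≤ ∑ i, (d i - 1) := by
    rw [← hJh.totalDegree hJ0, hQ, totalDegree_mul_of_isDomain hP0 hQ0, hPh.totalDegree hP0]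
    exact Nat.le_add_right _ _
  have hc : Nat.card {g : G // ((ρ g).val - 1).rank = 1} = R.card := by
    rw [Nat.card_eq_fintype_card, Fintype.card_subtype]
  rw [hc]
  exact hRc.trans hdeg

end Pool.Agent.V5helper61.CM.JACD
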